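import Pool.Agent.W172.WL.Stm

/-!
# Project WL, part VOL: union over the structures
-/

set_option autoImplicit false

open MeasureTheory Set Pool.Agent.W172.WL
open scoped ENNReal NNReal

namespace Pool.Agent.W247.WL

theorem vol : S_VOLS → S_VOL := by
  intro h b p c L l n z hb hl hz
  classical
  let T : (Fin (2 * p) → Fin (L + 1) × Fin b × Fin (2 * p) × Fin (n + L + c + 1)) ×
      (Fin (2 * p) → Fin (L + 1) × Fin b × Fin (2 * p) × Fin (n + L + c + 1)) → Set (Fin (2 * p) → ℝ) := fun x =>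
    {u | ((∀ a, ((x.1 a).2.2.1, ((x.1 a).2.2.2 : ℕ)) ≠ (a, n)) ∧ (∀ a, ((x.2 a).1 : ℕ) ≤ l) ∧
      (∀ a, ((x.2 a).2.2.1, ((x.2 a).2.2.2 : ℕ)) ≠ (a, n + L))) ∧ (∀ a, u a ∈ Ico (0:ℝ) 1) ∧
      ∀ a, StrW b n z n L u a ((x.1 a).1 : ℕ) ((x.1 a).2.1 : ℕ) (x.1 a).2.2.1 ((x.1 a).2.2.2 : ℕ) ∧
        StrW b n z (n + L) l u a ((x.2 a).1 : ℕ) ((x.2 a).2.1 : ℕ) (x.2 a).2.2.1 ((x.2 a).2.2.2 : ℕ)}
  have hsub : {u : Fin (2 * p) → ℝ | (∀ a, u a ∈ Ico (0:ℝ) 1) ∧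
    (∀ a, StrAt b n z c n L u a) ∧ (∀ a, StrAt b n z c (n + L) l u a)} ⊆ ⋃ x, T x := by
    rintro u ⟨h0, h1, h2⟩
    unfold StrAt at h1 h2
    choose q1 hq1 e1 he1 a1 k1 hne1 hk1 hA1 hB1 using h1
    choose q2 hq2 e2 he2 a2 k2 hne2 hk2 hA2 hB2 using h2
    refine mem_iUnion.2 ⟨(fun a => (⟨q1 a, by have := hq1 a; omega⟩, ⟨e1 a, he1 a⟩, a1 a, ⟨k1 a, by have := hk1 a; omega⟩),
      fun a => (⟨q2 a, by have := hq2 a; omega⟩, ⟨e2 a, he2 a⟩, a2 a, ⟨k2 a, by have := hk2 a; omega⟩)), ?_⟩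
    exact ⟨⟨hne1, hq2, hne2⟩, h0, fun a => ⟨⟨hA1 a, hB1 a⟩, ⟨hA2 a, hB2 a⟩⟩⟩
  have hT : ∀ x, volume (T x) ≤ ENNReal.ofReal ((b : ℝ) ^ (-((p : ℝ) * (L + l)))) := by
    intro x
    by_cases hx : ((∀ a, ((x.1 a).2.2.1, ((x.1 a).2.2.2 : ℕ)) ≠ (a, n)) ∧ (∀ a, ((x.2 a).1 : ℕ) ≤ l) ∧
      (∀ a, ((x.2 a).2.2.1, ((x.2 a).2.2.2 : ℕ)) ≠ (a, n + L)))
    · refine (measure_mono ?_).trans (h b p L l n z hb hl hz (fun a => ((x.1 a).1 : ℕ)) (fun a => ((x.1 a).2.1 : ℕ))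
        (fun a => ((x.1 a).2.2.2 : ℕ)) (fun a => ((x.2 a).1 : ℕ)) (fun a => ((x.2 a).2.1 : ℕ))
        (fun a => ((x.2 a).2.2.2 : ℕ)) (fun a => (x.1 a).2.2.1) (fun a => (x.2 a).2.2.1)
        (fun a => Nat.lt_succ_iff.1 (x.1 a).1.2) hx.1 hx.2.1 hx.2.2)
      intro u hu
      exact hu.2
    · have : T x = ∅ := by
        ext u
        simp only [mem_empty_iff_false, iff_false]
        intro hu
        exact hx hu.1
      rw [this]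
      simp
  refine (measure_mono hsub).trans ((measure_iUnion_le _).trans ?_)
  rw [tsum_fintype]
  refine (Finset.sum_le_sum fun x _ => hT x).trans ?_
  rw [Finset.sum_const, Finset.card_univ, nsmul_eq_mul]
  have hc : Fintype.card ((Fin (2 * p) → Fin (L + 1) × Fin b × Fin (2 * p) × Fin (n + L + c + 1)) ×
      (Fin (2 * p) → Fin (L + 1) × Fin b × Fin (2 * p) × Fin (n + L + c + 1))) =
      ((L + 1) * b * (2 * p) * (n + L + c + 1)) ^ (4 * p) := by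
    rw [Fintype.card_prod, Fintype.card_fun]
    simp only [Fintype.card_prod, Fintype.card_fin]
    rw [← pow_add]
    congr 1
    · ring
    · ring
  rw [hc, ENNReal.ofReal_mul (by positivity)]
  apply le_of_eq
  congr 1
  rw [← Nat.cast_pow, ENNReal.ofReal_natCast]

end Pool.Agent.W247.WL

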